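import Pool.Agent.Lib_helper80.TreeFinal

/-!
The set of acceptable formulas (truth-trees with parity and the recursive rule) satisfies
letter-sharing.
-/

namespace Pool.Agent.Results.MP_3f42a7_lc.LetterSharing

open Pool.Agent.TruthTrees

/-- If `φ → ψ` is acceptable, then `φ` and `ψ` share a sentence letter. -/
theorem result : ∀ φ ψ : Fml, Fml.imp φ ψ ∈ Acceptable → ∃ n, n ∈ φ.letters ∧ n ∈ ψ.letters := by
  intro φ ψ h
  have h1 := letterSharing_acceptable φ ψ h
  rw [Finset.disjoint_left] at h1
  push Not at h1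
  obtain ⟨n, hn, hn'⟩ := h1
  exact ⟨n, hn, hn'⟩

end Pool.Agent.Results.MP_3f42a7_lc.LetterSharing
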