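import Pool.Agent.Lib_helper80.TreeFinal

/-!
The set of acceptable formulas (truth-trees with parity and the recursive rule) has the
omissibility property.
-/

namespace Pool.Agent.Results.MP_3f42a7_lc.Omissibility

open Pool.Agent.TruthTrees

/-- The set `A` of acceptable formulas has the omissibility property. -/
theorem result : Omissibility Acceptable := omissibility_acceptable

end Pool.Agent.Results.MP_3f42a7_lc.Omissibility
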